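import Mathlib

set_option autoImplicit false
set_option linter.unusedSimpArgs false

/-!
# The strong arboricity is not bounded by the colouring number

For every `k ≥ 2` there is a finite simple graph with colouring number at most `k + 1` and strong
arboricity at least `2 k`.
-/

namespace Pool.Agent.Results.MP_5ca9a4_co.LowerBoundTwoK

open SimpleGraph

/-- An edge colouring `c` of `G` is strongly woody: for no cycle `p` of `G` and no edge `e` of `p`
do all the edges of `p` other than `e` (the broken cycle `p - e`) have one colour. -/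
def StronglyWoody {V : Type} (G : SimpleGraph V) {m : ℕ} (c : G.edgeSet → Fin m) : Prop :=
  ∀ (v : V) (p : G.Walk v v), p.IsCycle → ∀ e ∈ p.edges,
    ¬ ∃ a : Fin m, ∀ f : G.edgeSet, (f : Sym2 V) ∈ p.edges → (f : Sym2 V) ≠ e → c f = a

/-- The strong arboricity: the least number of colours in a strongly woody edge colouring. -/
noncomputable def strongArboricity {V : Type} (G : SimpleGraph V) : ℕ :=
  sInf {m : ℕ | ∃ c : G.edgeSet → Fin m, StronglyWoody G c}

/-- The back-degree of `v` in the linear ordering of the vertices given by the injective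
labelling `σ`: the number of neighbours of `v` that precede `v`. -/
noncomputable def backDegree {V : Type} (G : SimpleGraph V) (σ : V → ℕ) (v : V) : ℕ :=
  {u : V | G.Adj u v ∧ σ u < σ v}.ncard

/-- The colouring number: the least `r` such that some linear ordering of the vertices has all
back-degrees at most `r - 1`. -/
noncomputable def colouringNumber {V : Type} (G : SimpleGraph V) : ℕ :=
  sInf {r : ℕ | ∃ σ : V → ℕ, Function.Injective σ ∧ ∀ v, backDegree G σ v + 1 ≤ r}

section general

variable {V : Type} {G : SimpleGraph V}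

/-- No 4-cycle has three edges of one colour. -/
lemma four {m : ℕ} {c : G.edgeSet → Fin m} (hc : StronglyWoody G c) {p q r s : V}
    (hpq : G.Adj p q) (hqr : G.Adj q r) (hrs : G.Adj r s) (hsp : G.Adj s p)
    (hpr : p ≠ r) (hqs : q ≠ s)
    (h1 : c ⟨s(p, q), hpq⟩ = c ⟨s(q, r), hqr⟩) (h2 : c ⟨s(q, r), hqr⟩ = c ⟨s(r, s), hrs⟩) :
    False := by
  have hpq' := hpq.ne
  have hqr' := hqr.ne
  have hrs' := hrs.ne
  have hsp' := hsp.ne
  let w : G.Walk p p := Walk.cons hpq (Walk.cons hqr (Walk.cons hrs (Walk.cons hsp Walk.nil)))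
  have hw : w.IsCycle := by
    rw [Walk.isCycle_def]
    refine ⟨?_, ?_, ?_⟩
    · rw [Walk.isTrail_def]
      simp [w, hpq', hqr', hrs', hsp', hpr, hqs, hpr.symm, hqs.symm, hpq'.symm, hqr'.symm,
        hrs'.symm, hsp'.symm]
    · simp [w]
    · simp [w, hpq', hqr', hrs', hsp', hpr, hqs, hpr.symm, hqs.symm, hpq'.symm, hqr'.symm,
        hrs'.symm, hsp'.symm]
  refine hc p w hw s(s, p) (by simp [w]) ⟨c ⟨s(p, q), hpq⟩, ?_⟩
  rintro ⟨f, hf⟩ hfw hfe
  simp only [w, Walk.edges_cons, Walk.edges_nil, List.mem_cons, List.not_mem_nil, or_false]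
    at hfw
  rcases hfw with h | h | h | h
  · subst h; rfl
  · subst h; exact h1.symm
  · subst h; exact (h1.trans h2).symm
  · exact absurd h hfe

/-- In a finite graph the colouring with all colours distinct is strongly woody. -/
lemma exists_woody [Finite V] : ∃ m : ℕ, ∃ c : G.edgeSet → Fin m, StronglyWoody G c := by
  haveI : Finite G.edgeSet := inferInstance
  obtain ⟨m, ⟨e⟩⟩ := Finite.exists_equiv_fin G.edgeSet
  refine ⟨m, e, ?_⟩
  rintro v p hp g hg ⟨a, ha⟩
  have h3 := hp.three_le_length
  have hnd := hp.edges_nodup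
  have hlen : p.edges.length = p.length := Walk.length_edges p
  -- two distinct edges different from g
  have : ∃ f₁ ∈ p.edges, ∃ f₂ ∈ p.edges, f₁ ≠ f₂ ∧ f₁ ≠ g ∧ f₂ ≠ g := by
    classical
    have hcard : 2 ≤ (p.edges.toFinset.erase g).card := by
      rw [Finset.card_erase_of_mem (by simpa using hg), List.toFinset_card_of_nodup hnd, hlen]
      omega
    obtain ⟨f₁, hf₁, f₂, hf₂, hne⟩ := Finset.one_lt_card.mp hcard
    simp only [Finset.mem_erase, List.mem_toFinset] at hf₁ hf₂
    exact ⟨f₁, hf₁.2, f₂, hf₂.2, hne, hf₁.1, hf₂.1⟩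
  obtain ⟨f₁, h1, f₂, h2, hne, hg1, hg2⟩ := this
  have e1 := ha ⟨f₁, p.edges_subset_edgeSet h1⟩ h1 hg1
  have e2 := ha ⟨f₂, p.edges_subset_edgeSet h2⟩ h2 hg2
  have := e.injective (e1.trans e2.symm)
  exact hne (congrArg Subtype.val this)

end general

section construction

variable (k : ℕ)

/-- Number of middle vertices. -/
def N : ℕ := k * (2 * k) ^ k + 1

/-- Number of copies of each top vertex. -/
def M : ℕ := (2 * k) ^ k + 1

/-- The vertices: `k` roots, the middle vertices, and `M k` top vertices for each `k`-tuple of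
middle vertices. -/
abbrev Vert : Type := Fin k ⊕ (Fin (N k) ⊕ ((Fin k → Fin (N k)) × Fin (M k)))

/-- Adjacency before symmetrisation. -/
def rel : Vert k → Vert k → Prop
  | Sum.inl _, Sum.inr (Sum.inl _) => True
  | Sum.inr (Sum.inl x), Sum.inr (Sum.inr y) => ∃ i, y.1 i = x
  | _, _ => False

/-- The graph. -/
def Gr : SimpleGraph (Vert k) where
  Adj a b := rel k a b ∨ rel k b a
  symm := ⟨fun _ _ h => Or.symm h⟩
  loopless := ⟨by
    rintro (a | a | a) h <;> simp [rel] at h⟩

lemma adj_root (r : Fin k) (x : Fin (N k)) :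
    (Gr k).Adj (Sum.inl r) (Sum.inr (Sum.inl x)) := Or.inl trivial

lemma adj_top (g : Fin k → Fin (N k)) (j : Fin (M k)) (i : Fin k) :
    (Gr k).Adj (Sum.inr (Sum.inr (g, j))) (Sum.inr (Sum.inl (g i))) := Or.inr ⟨i, rfl⟩

/-- Any strongly woody colouring of the graph uses at least `2 k` colours. -/
lemma lower (hk : 2 ≤ k) {m : ℕ} (c : (Gr k).edgeSet → Fin m) (hc : StronglyWoody (Gr k) c) :
    2 * k ≤ m := by
  by_contra hlt
  push Not at hlt
  have hpow : m ^ k ≤ (2 * k) ^ k := Nat.pow_le_pow_left hlt.le k
  -- types of middle vertices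
  let T : Fin (N k) → (Fin k → Fin m) := fun x r => c ⟨s(Sum.inl r, Sum.inr (Sum.inl x)),
    adj_root k r x⟩
  have hcard : Fintype.card (Fin k → Fin m) = m ^ k := by simp
  have h1 : Fintype.card (Fin k → Fin m) * k < Fintype.card (Fin (N k)) := by
    rw [hcard, Fintype.card_fin]
    calc m ^ k * k ≤ (2 * k) ^ k * k := Nat.mul_le_mul_right k hpow
      _ = k * (2 * k) ^ k := Nat.mul_comm _ _
      _ < k * (2 * k) ^ k + 1 := Nat.lt_succ_self _
  obtain ⟨t, ht⟩ := Fintype.exists_lt_card_fiber_of_mul_lt_card T h1
  obtain ⟨s, hs, hscard⟩ := Finset.exists_subset_card_eq ht.le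
  let g : Fin k → Fin (N k) := fun i => s.orderEmbOfFin hscard i
  have ginj : Function.Injective g := (s.orderEmbOfFin hscard).injective
  have hg : ∀ i r, c ⟨s(Sum.inl r, Sum.inr (Sum.inl (g i))), adj_root k r (g i)⟩ = t r := by
    intro i r
    have hmem : g i ∈ s := s.orderEmbOfFin_mem hscard i
    have := hs hmem
    simp only [Finset.mem_filter, Finset.mem_univ, true_and] at this
    exact congrFun this r
  -- types of top vertices over g
  let D : Fin (M k) → (Fin k → Fin m) := fun j i =>
    c ⟨s(Sum.inr (Sum.inr (g, j)), Sum.inr (Sum.inl (g i))), adj_top k g j i⟩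
  have h2 : Fintype.card (Fin k → Fin m) < Fintype.card (Fin (M k)) := by
    rw [hcard, Fintype.card_fin]
    exact Nat.lt_succ_of_le hpow
  obtain ⟨j, j', hjj, hD⟩ := Fintype.exists_ne_map_eq_of_card_lt D h2
  have hother : ∀ i : Fin k, ∃ i' : Fin k, i' ≠ i := by
    intro i
    haveI : Nontrivial (Fin k) := Fin.nontrivial_iff_two_le.mpr hk
    exact exists_ne i
  -- colours in symmetric form
  have csymm : ∀ {a b : Vert k} (h : (Gr k).Adj a b), c ⟨s(a, b), h⟩ = c ⟨s(b, a), h.symm⟩ := by
    intro a b h
    congr 1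
    exact Subtype.ext Sym2.eq_swap
  have tinj : Function.Injective t := by
    intro r r' hrr
    by_contra hne
    obtain ⟨i', hi'⟩ := hother ⟨0, by omega⟩
    refine four hc (p := Sum.inl r) (q := Sum.inr (Sum.inl (g ⟨0, by omega⟩)))
      (r := Sum.inl r') (s := Sum.inr (Sum.inl (g i'))) (adj_root k _ _) (adj_root k _ _).symm
      (adj_root k _ _) (adj_root k _ _).symm ?_ ?_ ?_ ?_
    · intro h; exact hne (Sum.inl_injective h)
    · intro h; exact hi' (ginj (Sum.inl_injective (Sum.inr_injective h))).symm
    · rw [← csymm (adj_root k _ _), hg, hg, hrr]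
    · rw [← csymm (adj_root k _ _), hg, hg]
  have Dinj : Function.Injective (D j) := by
    intro i i' hii
    by_contra hne
    have hD' : ∀ i, D j i = D j' i := fun i => congrFun hD i
    refine four hc (p := Sum.inr (Sum.inr (g, j))) (q := Sum.inr (Sum.inl (g i)))
      (r := Sum.inr (Sum.inr (g, j'))) (s := Sum.inr (Sum.inl (g i'))) (adj_top k _ _ _)
      (adj_top k _ _ _).symm (adj_top k _ _ _) (adj_top k _ _ _).symm ?_ ?_ ?_ ?_
    · intro h
      have := Sum.inr_injective (Sum.inr_injective h)
      exact hjj (congrArg Prod.snd this)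
    · intro h
      exact hne (ginj (Sum.inl_injective (Sum.inr_injective h)))
    · rw [← csymm (adj_top k _ _ _)]
      exact hD' i
    · rw [← csymm (adj_top k _ _ _)]
      exact (hD' i).symm.trans (hii.trans (hD' i'))
  have hdisj : ∀ i r, D j i ≠ t r := by
    intro i r h
    obtain ⟨i', hi'⟩ := hother i
    refine four hc (p := Sum.inr (Sum.inr (g, j))) (q := Sum.inr (Sum.inl (g i)))
      (r := Sum.inl r) (s := Sum.inr (Sum.inl (g i'))) (adj_top k _ _ _)
      (adj_root k _ _).symm (adj_root k _ _) (adj_top k _ _ _).symm ?_ ?_ ?_ ?_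
    · intro h; cases h
    · intro h; exact hi' (ginj (Sum.inl_injective (Sum.inr_injective h))).symm
    · rw [← csymm (adj_root k _ _), hg]
      exact h
    · rw [← csymm (adj_root k _ _), hg, hg]
  have hinj : Function.Injective (Sum.elim t (D j)) := by
    rintro (a | a) (b | b) h
    · exact congrArg _ (tinj h)
    · exact absurd h.symm (hdisj b a)
    · exact absurd h (hdisj a b)
    · exact congrArg _ (Dinj h)
  have := Fintype.card_le_of_injective _ hinj
  simp only [Fintype.card_sum, Fintype.card_fin] at this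
  omega

/-- The labelling that puts the roots first, then the middle vertices, then the top vertices. -/
noncomputable def lab : Vert k → ℕ
  | Sum.inl r => r
  | Sum.inr (Sum.inl x) => k + x
  | Sum.inr (Sum.inr y) => k + N k + (Fintype.equivFin _ y : ℕ)

lemma lab_inj : Function.Injective (lab k) := by
  rintro (a | a | a) (b | b | b) h
  · simp only [lab] at h; rw [Fin.ext h]
  · simp only [lab] at h; have := a.2; omega
  · simp only [lab] at h; have := a.2; omega
  · simp only [lab] at h; have := b.2; omega
  · simp only [lab] at h; rw [Fin.ext (Nat.add_left_cancel h)]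
  · simp only [lab] at h; have := a.2; omega
  · simp only [lab] at h; have := b.2; omega
  · simp only [lab] at h; have := b.2; omega
  · simp only [lab] at h
    have := (Fintype.equivFin _).injective (Fin.ext (Nat.add_left_cancel h))
    rw [this]

lemma back_le (v : Vert k) : backDegree (Gr k) (lab k) v ≤ k := by
  unfold backDegree
  rcases v with r | x | y
  · have : {u : Vert k | (Gr k).Adj u (Sum.inl r) ∧ lab k u < lab k (Sum.inl r)} = ∅ := by
      ext u
      simp only [Set.mem_setOf_eq, Set.mem_empty_iff_false, iff_false, not_and]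
      rintro h
      rcases u with a | a | a
      · simp [Gr, rel] at h
      · simp only [lab]; have := r.2; omega
      · simp [Gr, rel] at h
    rw [this]; simp
  · have hsub : {u : Vert k | (Gr k).Adj u (Sum.inr (Sum.inl x)) ∧
        lab k u < lab k (Sum.inr (Sum.inl x))} ⊆ Set.range (fun r : Fin k => (Sum.inl r : Vert k)) := by
      rintro u ⟨h, hl⟩
      rcases u with a | a | a
      · exact ⟨a, rfl⟩
      · simp [Gr, rel] at h
      · simp only [lab] at hl; have := x.2; omega
    calc _ ≤ (Set.range (fun r : Fin k => (Sum.inl r : Vert k))).ncard :=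
          Set.ncard_le_ncard hsub (Set.finite_range _)
      _ ≤ k := by
          rw [← Set.image_univ]
          refine (Set.ncard_image_le Set.finite_univ).trans ?_
          simp [Set.ncard_univ]
  · have hsub : {u : Vert k | (Gr k).Adj u (Sum.inr (Sum.inr y)) ∧
        lab k u < lab k (Sum.inr (Sum.inr y))} ⊆
          Set.range (fun r : Fin k => (Sum.inr (Sum.inl (y.1 r)) : Vert k)) := by
      rintro u ⟨h, hl⟩
      rcases u with a | a | a
      · simp [Gr, rel] at h
      · simp only [Gr, rel, or_false] at h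
        obtain ⟨i, hi⟩ := h
        exact ⟨i, by simp [hi]⟩
      · simp [Gr, rel] at h
    calc _ ≤ (Set.range (fun r : Fin k => (Sum.inr (Sum.inl (y.1 r)) : Vert k))).ncard :=
          Set.ncard_le_ncard hsub (Set.finite_range _)
      _ ≤ k := by
          rw [← Set.image_univ]
          refine (Set.ncard_image_le Set.finite_univ).trans ?_
          simp [Set.ncard_univ]

end construction

/-- **Theorem.** For every `k ≥ 2` there is a finite simple graph `G` with colouring number at most
`k + 1` and strong arboricity at least `2 k`.  (For `k = 2` this already gives a graph with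
strong arboricity at least `col + 1`.) -/
theorem result : ∀ k : ℕ, 2 ≤ k → ∃ (V : Type) (_ : Fintype V) (G : SimpleGraph V),
    colouringNumber G ≤ k + 1 ∧ 2 * k ≤ strongArboricity G := by
  intro k hk
  refine ⟨Vert k, inferInstance, Gr k, ?_, ?_⟩
  · exact Nat.sInf_le ⟨lab k, lab_inj k, fun v => Nat.succ_le_succ (back_le k v)⟩
  · refine le_csInf ?_ ?_
    · obtain ⟨m, c, hc⟩ := exists_woody (G := Gr k)
      exact ⟨m, c, hc⟩
    · rintro m ⟨c, hc⟩
      exact lower k hk c hc

end Pool.Agent.Results.MP_5ca9a4_co.LowerBoundTwoK
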